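import Pool.Agent.W544.K3.Defs2
import Pool.Agent.W565.K3.Irr

set_option autoImplicit false
set_option linter.unusedSimpArgs false

/-!
K3-IRR2: irreducibility for products of K3 surfaces. Adapted from Pool.Agent.W565.K3.Irr.
-/

open Module Finset

namespace Pool.Agent.W976.K3

open Pool.Agent.W544.K3
open Pool.Agent.W565.K3 (opR opR_apply formR_basis sum_two tQ tQ_ev app_cj bil_smul_left
  bil_smul_right MC mem_MC app_re app_im app_mulVec app_add)

noncomputable section

variable {n N : ℕ}

/-- (0) -/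
theorem lie_memM (X : Multi n N) (x : Matrix (Fin n) (Fin n) ℚ) (hx : x ∈ X.lie) :
    opR x ∈ X.hT := by
  intro k t ht
  -- the multilinear map
  let T : MultilinearMap ℝ (fun _ : Fin k => (Fin n → ℝ)) ℝ :=
    ∑ j : Fin k, (formR t).compLinearMap (fun i => if i = j then opR x else LinearMap.id)
  have hT : ∀ v, T v = ∑ j, formR t (Function.update v j (opR x (v j))) := by
    intro v
    simp only [T, _root_.sum_apply, MultilinearMap.compLinearMap_apply]
    refine Finset.sum_congr rfl fun j _ => ?_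
    congr 1
    funext i
    by_cases h : i = j
    · subst h
      simp
    · simp [h]
  have hT0 : T = 0 := by
    refine Module.Basis.ext_multilinear (fun _ => Pi.basisFun ℝ (Fin n)) ?_
    intro I
    rw [hT]
    simp only [Pi.basisFun_apply, _root_.zero_apply]
    have h1 := hx k t ht I
    have h2 : ∀ j, formR t (Function.update (fun i => Pi.single (I i) (1 : ℝ)) j
        (opR x (Pi.single (I j) 1))) = ∑ l, (x l (I j) : ℝ) * (t (Function.update I j l) : ℝ) := by
      intro j
      have h3 : opR x (Pi.single (I j) 1) = ∑ l, (x l (I j) : ℝ) • Pi.single l (1 : ℝ) := by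
        funext i
        rw [opR_apply]
        simp [Pi.single_apply, Finset.sum_apply]
      rw [h3, MultilinearMap.map_update_sum]
      refine Finset.sum_congr rfl fun l _ => ?_
      rw [MultilinearMap.map_update_smul, smul_eq_mul]
      congr 1
      rw [← formR_basis]
      congr 1
      funext i
      by_cases h : i = j
      · subst h
        simp
      · simp [h]
    simp only [h2]
    exact_mod_cast h1
  intro v
  rw [← hT, hT0]
  rfl

theorem tQ_drbM (X : Multi n N) (Q : Matrix (Fin n) (Fin n) ℚ)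
    (h : ∀ a b, IsAlgebraic ℚ (∑ i, ∑ j, (Q i j : ℂ) * (X.D i a * X.D j b))) :
    X.IsDRB (tQ Q) := by
  intro J
  have : (∑ I : Fin 2 → Fin n, (tQ Q I : ℂ) * ∏ j, X.D (I j) (J j)) =
      ∑ i, ∑ j, (Q i j : ℂ) * (X.D i (J 0) * X.D j (J 1)) := by
    rw [← sum_two]
    refine Finset.sum_congr rfl fun I _ => ?_
    rw [Fin.prod_univ_two]
    rfl
  rw [this]
  exact h _ _

theorem kills_twoM (X : Multi n N) (Q : Matrix (Fin n) (Fin n) ℚ) (h : X.IsDRB (tQ Q))
    (y : End ℝ (Fin n → ℝ)) (hy : y ∈ X.hT) (u w : Fin n → ℝ) :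
    (∑ i, ∑ j, (Q i j : ℝ) * (y u i * w j)) + ∑ i, ∑ j, (Q i j : ℝ) * (u i * y w j) = 0 := by
  have := hy 2 _ h ![u, w]
  rw [Fin.sum_univ_two, tQ_ev, tQ_ev] at this
  simpa using this

theorem skew_hTM (X : Multi n N) (y : End ℝ (Fin n → ℝ)) (hy : y ∈ X.hT) : Skew (bilR X.B) y := by
  intro u w
  have hD : X.IsDRB (tQ X.B) := by
    apply tQ_drbM
    intro a b
    have := X.alg a b
    unfold bil at this
    convert this using 1
    refine Finset.sum_congr rfl fun i _ => Finset.sum_congr rfl fun j _ => ?_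
    ring
  have := kills_twoM X X.B hD y hy u w
  rw [bilR_apply, bilR_apply]
  convert this using 2
  · refine Finset.sum_congr rfl fun i _ => Finset.sum_congr rfl fun j _ => ?_
    ring
  · refine Finset.sum_congr rfl fun i _ => Finset.sum_congr rfl fun j _ => ?_
    ring

/-- the block of a vector -/
def blk (X : Multi n N) (i : Fin N) (v : Fin n → ℝ) : Fin n → ℝ :=
  fun a => if X.c a = i then v a else 0

theorem bilR_blk (X : Multi n N) (i : Fin N) (v w : Fin n → ℝ) :
    bilR X.B (blk X i v) w = bilR X.B v (blk X i w) := by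
  rw [bilR_apply, bilR_apply]
  refine Finset.sum_congr rfl fun a _ => Finset.sum_congr rfl fun b _ => ?_
  unfold blk
  by_cases ha : X.c a = i
  · by_cases hb : X.c b = i
    · rw [if_pos ha, if_pos hb]
    · have h1 : X.B a b = 0 := X.Bblock a b (by rw [ha]; exact fun h => hb h.symm)
      rw [h1]
      simp
  · by_cases hb : X.c b = i
    · have h1 : X.B a b = 0 := X.Bblock a b (by rw [hb]; exact ha)
      rw [h1]
      simp
    · rw [if_neg ha, if_neg hb]
      simp

theorem bilR_nondegM (X : Multi n N) (v : Fin n → ℝ) (h : ∀ w, bilR X.B v w = 0) : v = 0 := by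
  by_contra hv
  obtain ⟨a0, ha0⟩ : ∃ a, v a ≠ 0 := by
    by_contra hcon
    push Not at hcon
    exact hv (funext hcon)
  set i := X.c a0 with hi
  set u := blk X i v with hu
  have hu0 : u ≠ 0 := by
    intro h0
    have := congrFun h0 a0
    rw [hu] at this
    unfold blk at this
    rw [if_pos rfl] at this
    exact ha0 this
  have h' : ∀ w, bilR X.B u w = 0 := by
    intro w
    rw [hu, bilR_blk]
    exact h _
  have h1 : bil X.B (fun a => (u a : ℂ)) (X.ω i) = 0 := by
    have e1 := h' (fun a => (X.ω i a).re)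
    have e2 := h' (fun a => (X.ω i a).im)
    rw [bilR_apply] at e1 e2
    apply Complex.ext
    · simp only [bil, Complex.re_sum, Complex.zero_re]
      rw [← e1]
      refine Finset.sum_congr rfl fun i _ => Finset.sum_congr rfl fun j _ => ?_
      simp
    · simp only [bil, Complex.im_sum, Complex.zero_im]
      rw [← e2]
      refine Finset.sum_congr rfl fun i _ => Finset.sum_congr rfl fun j _ => ?_
      simp
  have h2 := X.neg i u (fun a ha => by rw [hu]; unfold blk; rw [if_neg ha]) hu0 h1
  have h3 : (bil X.B (fun a => (u a : ℂ)) (fun a => (u a : ℂ))).re = bilR X.B u u := by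
    rw [bilR_apply]
    simp only [bil, Complex.re_sum]
    refine Finset.sum_congr rfl fun i _ => Finset.sum_congr rfl fun j _ => ?_
    simp
  rw [h3, h' u] at h2
  exact lt_irrefl _ h2

theorem comm_hodgeM (X : Multi n N) (hD : X.Deligne) (P : Matrix (Fin n) (Fin n) ℚ)
    (hP : X.HodgeEnd P) (y : End ℝ (Fin n → ℝ)) (hy : y ∈ X.hT) (u : Fin n → ℝ) :
    opR P (y u) = y (opR P u) := by
  have hsk := skew_hTM X y hy
  have hDR : X.IsDRB (tQ (P.transpose * X.B)) := by
    apply tQ_drbM
    intro a b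
    have := hD P hP a b
    unfold bil app at this
    convert this using 1
    have e1 : ∀ i j, ((P.transpose * X.B) i j : ℚ) = ∑ l, P l i * X.B l j := by
      intro i j
      rw [Matrix.mul_apply]
      rfl
    simp only [e1]
    push_cast
    have e2 : ∀ i j, (∑ l, (P l i : ℂ) * (X.B l j : ℂ)) * (X.D i a * X.D j b) =
        ∑ l, (P l i : ℂ) * X.D i a * (X.B l j : ℂ) * X.D j b := by
      intro i j
      rw [Finset.sum_mul]
      exact Finset.sum_congr rfl fun l _ => by ring
    simp only [e2, Finset.sum_mul]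
    calc ∑ i, ∑ j, ∑ l, (P l i : ℂ) * X.D i a * (X.B l j : ℂ) * X.D j b
        = ∑ i, ∑ l, ∑ j, (P l i : ℂ) * X.D i a * (X.B l j : ℂ) * X.D j b :=
          Finset.sum_congr rfl fun i _ => Finset.sum_comm
      _ = ∑ l, ∑ i, ∑ j, (P l i : ℂ) * X.D i a * (X.B l j : ℂ) * X.D j b := Finset.sum_comm
      _ = _ := Finset.sum_congr rfl fun l _ => Finset.sum_comm
  have key : ∀ w, bilR X.B (opR P (y u)) w + bilR X.B (opR P u) (y w) = 0 := by
    intro w
    have := kills_twoM X _ hDR y hy u w
    have conv : ∀ u w : Fin n → ℝ, bilR X.B (opR P u) w =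
        ∑ i, ∑ j, ((P.transpose * X.B) i j : ℝ) * (u i * w j) := by
      intro u w
      rw [bilR_apply]
      simp only [opR_apply]
      have e1 : ∀ i j, ((P.transpose * X.B) i j : ℚ) = ∑ l, P l i * X.B l j := by
        intro i j
        rw [Matrix.mul_apply]
        rfl
      simp only [e1]
      push_cast
      simp only [Finset.sum_mul]
      calc ∑ l, ∑ j, ∑ i, (P l i : ℝ) * u i * (X.B l j : ℝ) * w j
          = ∑ l, ∑ i, ∑ j, (P l i : ℝ) * u i * (X.B l j : ℝ) * w j :=
            Finset.sum_congr rfl fun l _ => Finset.sum_comm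
        _ = ∑ i, ∑ l, ∑ j, (P l i : ℝ) * u i * (X.B l j : ℝ) * w j := Finset.sum_comm
        _ = ∑ i, ∑ j, ∑ l, (P l i : ℝ) * u i * (X.B l j : ℝ) * w j :=
            Finset.sum_congr rfl fun i _ => Finset.sum_comm
        _ = _ := Finset.sum_congr rfl fun i _ => Finset.sum_congr rfl fun j _ =>
            Finset.sum_congr rfl fun l _ => by ring
    rw [conv, conv]
    exact this
  have h0 : opR P (y u) - y (opR P u) = 0 := by
    apply bilR_nondegM X
    intro w
    have h1 := key w
    have h2 := hsk (opR P u) w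
    rw [map_sub, LinearMap.sub_apply]
    linarith
  exact sub_eq_zero.1 h0

/-- the projection to a block -/
def Eb (X : Multi n N) (i : Fin N) : Matrix (Fin n) (Fin n) ℚ :=
  Matrix.diagonal fun a => if X.c a = i then 1 else 0

theorem app_Eb (X : Multi n N) (i : Fin N) (v : Fin n → ℂ) (a : Fin n) :
    app (Eb X i) v a = if X.c a = i then v a else 0 := by
  unfold app Eb
  rw [Finset.sum_eq_single a]
  · rw [Matrix.diagonal_apply_eq]
    split_ifs <;> simp
  · intro b _ hb
    rw [Matrix.diagonal_apply_ne _ hb.symm]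
    simp
  · intro h
    exact absurd (Finset.mem_univ a) h

theorem opR_Eb (X : Multi n N) (i : Fin N) (v : Fin n → ℝ) (a : Fin n) :
    opR (Eb X i) v a = if X.c a = i then v a else 0 := by
  rw [opR_apply]
  unfold Eb
  rw [Finset.sum_eq_single a]
  · rw [Matrix.diagonal_apply_eq]
    split_ifs <;> simp
  · intro b _ hb
    rw [Matrix.diagonal_apply_ne _ hb.symm]
    simp
  · intro h
    exact absurd (Finset.mem_univ a) h

theorem bil_Eb (X : Multi n N) (i : Fin N) (u v : Fin n → ℂ) :
    bil X.B (app (Eb X i) u) v = bil X.B u (app (Eb X i) v) := by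
  unfold bil
  refine Finset.sum_congr rfl fun a _ => Finset.sum_congr rfl fun b _ => ?_
  rw [app_Eb, app_Eb]
  by_cases ha : X.c a = i
  · by_cases hb : X.c b = i
    · rw [if_pos ha, if_pos hb]
    · have h1 : X.B a b = 0 := X.Bblock a b (by rw [ha]; exact fun h => hb h.symm)
      rw [h1]
      simp
  · by_cases hb : X.c b = i
    · have h1 : X.B a b = 0 := X.Bblock a b (by rw [hb]; exact ha)
      rw [h1]
      simp
    · rw [if_neg ha, if_neg hb]
      simp

theorem Eb_om (X : Multi n N) (i j : Fin N) :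
    app (Eb X i) (X.ω j) = (if j = i then (1 : ℂ) else 0) • X.ω j := by
  funext a
  rw [app_Eb, Pi.smul_apply, smul_eq_mul]
  by_cases hj : j = i
  · subst hj
    rw [if_pos rfl, one_mul]
    split_ifs with ha
    · rfl
    · exact (X.ωblock j a ha).symm
  · rw [if_neg hj, zero_mul]
    split_ifs with ha
    · exact X.ωblock j a (by rw [ha]; exact fun h => hj h.symm)
    · rfl

theorem Eb_hodge (X : Multi n N) (i : Fin N) : X.HodgeEnd (Eb X i) := by
  constructor
  · intro j
    rw [Eb_om]
    exact Submodule.smul_mem _ _ (Submodule.subset_span ⟨j, rfl⟩)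
  · intro v hv j
    have h2 : app (Eb X i) (cj (X.ω j)) = (if j = i then (1 : ℂ) else 0) • cj (X.ω j) := by
      rw [app_cj, Eb_om]
      funext a
      simp only [cj, Pi.smul_apply, smul_eq_mul, map_mul]
      split_ifs <;> simp
    rw [bil_Eb, bil_Eb, Eb_om, h2, bil_smul_right, bil_smul_right, (hv j).1, (hv j).2]
    simp

theorem hT_UM (X : Multi n N) (hD : X.Deligne) (i : Fin N) :
    ∀ y ∈ X.hT, ∀ u ∈ X.U i, y u ∈ X.U i := by
  intro y hy u hu
  refine ⟨?_, ?_⟩
  · intro a ha
    have h1 := comm_hodgeM X hD (Eb X i) (Eb_hodge X i) y hy u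
    have h2 : opR (Eb X i) u = u := by
      funext b
      rw [opR_Eb]
      split_ifs with hb
      · rfl
      · exact (hu.1 b hb).symm
    rw [h2] at h1
    have h3 := congrFun h1 a
    rw [opR_Eb, if_neg ha] at h3
    exact h3.symm
  · intro P hP c hc a
    have h1 := comm_hodgeM X hD P hP y hy u
    have h2 : opR P u = c • u := by
      funext b
      rw [opR_apply]
      exact hu.2 P hP c hc b
    rw [h2, map_smul] at h1
    have h3 := congrFun h1 a
    rw [opR_apply] at h3
    exact h3

theorem bil_cjM (X : Multi n N) (i : Fin N) : bil X.B (X.ω i) (cj (X.ω i)) ≠ 0 := by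
  intro h
  have := X.pos i
  rw [h] at this
  simp at this

/-- (2) -/
theorem hodge_realM (X : Multi n N) (hR : X.RealMult) (P : Matrix (Fin n) (Fin n) ℚ)
    (hP : X.HodgeEnd P) (i : Fin N) : ∃ c : ℝ, app P (X.ω i) = (c : ℂ) • X.ω i := by
  have hbl : app (Eb X i) (app P (X.ω i)) = app P (X.ω i) := by
    funext a
    rw [app_Eb]
    split_ifs with ha
    · rfl
    · symm
      unfold app
      refine Finset.sum_eq_zero fun b _ => ?_
      by_cases hb : X.c b = i
      · rw [(hR P hP).2 a b (by rw [hb]; exact ha)]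
        simp
      · rw [X.ωblock i b hb, mul_zero]
  have hsp : ∀ x ∈ Submodule.span ℂ (Set.range X.ω), ∃ c : ℂ, app (Eb X i) x = c • X.ω i := by
    intro x hx
    refine Submodule.span_induction (p := fun x _ => ∃ c : ℂ, app (Eb X i) x = c • X.ω i)
      ?_ ?_ ?_ ?_ hx
    · rintro _ ⟨j, rfl⟩
      rw [Eb_om]
      by_cases hj : j = i
      · subst hj
        exact ⟨_, rfl⟩
      · exact ⟨0, by rw [if_neg hj, zero_smul, zero_smul]⟩
    · refine ⟨0, ?_⟩
      funext a
      rw [app_Eb]
      simp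
    · rintro x y _ _ ⟨c, hc⟩ ⟨c', hc'⟩
      exact ⟨c + c', by rw [app_add, hc, hc', add_smul]⟩
    · rintro a x _ ⟨c, hc⟩
      refine ⟨a * c, ?_⟩
      rw [app_mulVec, Matrix.mulVec_smul, ← app_mulVec, hc, mul_smul]
  obtain ⟨c, hc⟩ := hsp _ (hP.1 i)
  rw [hbl] at hc
  have h1 := (hR P hP).1 (X.ω i) (cj (X.ω i))
  rw [app_cj, hc, bil_smul_left] at h1
  have h2 : cj (c • X.ω i) = (starRingEnd ℂ c) • cj (X.ω i) := by
    funext a
    simp [cj]
  rw [h2, bil_smul_right] at h1
  have h3 := mul_right_cancel₀ (bil_cjM X i) h1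
  refine ⟨c.re, ?_⟩
  rw [hc, Complex.conj_eq_iff_re.1 h3.symm]

theorem irr2 : S_irr2 := by
  intro n N X hRed hEnd hD hR i₀
  refine ⟨?_, skew_hTM X, hT_UM X hD i₀⟩
  intro M hMU hJ hS
  by_cases hM : M = ⊥
  · exact Or.inl hM
  right
  have hst : ∀ x ∈ X.lie, ∀ v ∈ MC M hJ, app x v ∈ MC M hJ := by
    intro x hx v hv
    rw [mem_MC] at hv ⊢
    rw [app_re, app_im]
    exact hS _ (lie_memM X x hx) _ hv
  obtain ⟨M', hM'st, hcompl⟩ := hRed (MC M hJ) hst
  set π : (Fin n → ℂ) →ₗ[ℂ] (Fin n → ℂ) := (MC M hJ).projection M' hcompl with hπ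
  have hπ1 : ∀ v ∈ MC M hJ, π v = v := fun v hv =>
    Submodule.projection_apply_of_mem_left hcompl hv
  have hπ2 : ∀ v ∈ M', π v = 0 := fun v hv =>
    (Submodule.projection_apply_eq_zero_iff hcompl).2 hv
  have hπ3 : ∀ v, π v ∈ MC M hJ := fun v => Submodule.projection_apply_mem hcompl v
  have hπc : ∀ x ∈ X.lie, ∀ v, π (app x v) = app x (π v) := by
    intro x hx v
    obtain ⟨m, hm, m', hm', rfl⟩ : ∃ m ∈ MC M hJ, ∃ m' ∈ M', m + m' = v := by
      have : v ∈ MC M hJ ⊔ M' := by
        rw [hcompl.sup_eq_top]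
        exact Submodule.mem_top
      exact Submodule.mem_sup.1 this
    rw [app_add, map_add, map_add, hπ1 _ (hst x hx m hm), hπ2 _ (hM'st x hx m' hm'), hπ1 m hm,
      hπ2 m' hm', add_zero, add_zero]
  have hcomm : ∀ x ∈ X.lie, LinearMap.toMatrix' π * x.map (fun q : ℚ => (q : ℂ)) =
      x.map (fun q : ℚ => (q : ℂ)) * LinearMap.toMatrix' π := by
    intro x hx
    apply Matrix.toLin'.injective
    rw [Matrix.toLin'_mul, Matrix.toLin'_mul, Matrix.toLin'_toMatrix']
    apply LinearMap.ext
    intro v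
    simp only [LinearMap.comp_apply, Matrix.toLin'_apply]
    rw [← app_mulVec, ← app_mulVec]
    exact hπc x hx v
  have hspan := hEnd _ hcomm
  have hscal : ∃ c : ℂ, ∀ v : Fin n → ℂ, (fun i => (v i).re) ∈ X.U i₀ → (fun i => (v i).im) ∈ X.U i₀ →
      (LinearMap.toMatrix' π).mulVec v = c • v := by
    refine Submodule.span_induction (p := fun Q _ => ∃ c : ℂ, ∀ v : Fin n → ℂ,
      (fun i => (v i).re) ∈ X.U i₀ → (fun i => (v i).im) ∈ X.U i₀ → Q.mulVec v = c • v) ?_ ?_ ?_ ?_ hspan
    · rintro _ ⟨P, hP, rfl⟩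
      obtain ⟨c, hc⟩ := hodge_realM X hR P hP i₀
      refine ⟨(c : ℂ), fun v h1 h2 => ?_⟩
      rw [← app_mulVec]
      funext i
      have e1 := h1.2 P hP c hc i
      have e2 := h2.2 P hP c hc i
      apply Complex.ext
      · rw [show (app P v i).re = (fun i => (app P v i).re) i from rfl, app_re, opR_apply, e1]
        simp
      · rw [show (app P v i).im = (fun i => (app P v i).im) i from rfl, app_im, opR_apply, e2]
        simp
    · exact ⟨0, fun v _ _ => by simp⟩
    · rintro Q Q' _ _ ⟨c, hc⟩ ⟨c', hc'⟩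
      exact ⟨c + c', fun v h1 h2 => by
        rw [Matrix.add_mulVec, hc v h1 h2, hc' v h1 h2, add_smul]⟩
    · rintro a Q _ ⟨c, hc⟩
      exact ⟨a * c, fun v h1 h2 => by
        rw [Matrix.smul_mulVec, hc v h1 h2, mul_smul]⟩
  obtain ⟨c, hc⟩ := hscal
  have hπm : ∀ v, (LinearMap.toMatrix' π).mulVec v = π v := by
    intro v
    rw [← Matrix.toLin'_apply, Matrix.toLin'_toMatrix']
  obtain ⟨p, hp, hp0⟩ := Submodule.exists_mem_ne_zero_of_ne_bot hM
  have hc1 : c = 1 := by
    let m : Fin n → ℂ := fun i => ⟨p.1 i, p.2 i⟩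
    have hm : m ∈ MC M hJ := by
      rw [mem_MC]
      exact hp
    have h1 := hc m (hMU p hp).1 (hMU p hp).2
    rw [hπm, hπ1 m hm] at h1
    have hm0 : m ≠ 0 := by
      intro h0
      apply hp0
      ext i
      · have := congrArg Complex.re (congrFun h0 i)
        simpa [m] using this
      · have := congrArg Complex.im (congrFun h0 i)
        simpa [m] using this
    have h2 : (1 - c) • m = 0 := by
      rw [sub_smul, one_smul, ← h1, sub_self]
    exact (sub_eq_zero.1 ((smul_eq_zero.1 h2).resolve_right hm0)).symm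
  intro u hu v hv
  let w : Fin n → ℂ := fun i => ⟨u i, v i⟩
  have h1 := hc w hu hv
  rw [hπm, hc1, one_smul] at h1
  have h2 := hπ3 w
  rw [h1] at h2
  exact h2

end

end Pool.Agent.W976.K3
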