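import Pool.Agent.W544.K3.Defs2
import Pool.Agent.W721.K3.Hodge

set_option autoImplicit false

/-!
K3-HODGE2: if the rotations of the planes of the two-forms lie in the Lie algebra of the de
Rham-Betti group, then de Rham-Betti classes are Hodge classes (products of K3 surfaces).
Adapted from Pool.Agent.W721.K3.Hodge.
-/

open Module Finset

namespace Pool.Agent.W976.K3

open Pool.Agent.W544.K3 Pool.Agent.W721.K3

noncomputable section

variable {n N : ℕ}

theorem planeM (X : Multi n N) (i : Fin N) :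
    bilR X.B (rp (X.ω i)) (rp (X.ω i)) = bilR X.B (ip (X.ω i)) (ip (X.ω i)) ∧
    bilR X.B (rp (X.ω i)) (ip (X.ω i)) = 0 ∧ 0 < bilR X.B (rp (X.ω i)) (rp (X.ω i)) := by
  have h1 := X.iso i
  have h2 := X.pos i
  have hs := bilR_symm X.B X.symm (ip (X.ω i)) (rp (X.ω i))
  rw [cj_eq_rp_ip] at h2
  rw [eq_rp_ip (X.ω i)] at h1
  have h3 : bil X.B (X.ω i) = bil X.B (cv (rp (X.ω i)) + Complex.I • cv (ip (X.ω i))) := by
    rw [← eq_rp_ip]
  rw [h3] at h2
  rw [bil_add_left, bil_add_right, bil_add_right, bil_smul_left, bil_smul_left, bil_smul_right,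
    bil_smul_right, bil_cv, bil_cv, bil_cv, bil_cv, hs] at h1 h2
  have h4 := congrArg Complex.re h1
  have h5 := congrArg Complex.im h1
  simp at h4 h5 h2
  refine ⟨by linarith, by linarith, by linarith⟩

theorem rp_memM (X : Multi n N) (i : Fin N) : rp (X.ω i) ∈ X.U i := by
  refine ⟨fun a ha => by simp [rp, X.ωblock i a ha], ?_⟩
  intro P _ c hc a
  have h1 := congrArg Complex.re (congrFun hc a)
  simp only [app, Pi.smul_apply, smul_eq_mul, Complex.re_sum] at h1
  simp only [rp]
  rw [Complex.re_ofReal_mul] at h1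
  rw [← h1]
  refine Finset.sum_congr rfl fun j _ => ?_
  have : ((P a j : ℚ) : ℂ) = (((P a j : ℚ) : ℝ) : ℂ) := by push_cast; rfl
  rw [this, Complex.re_ofReal_mul]

theorem ip_memM (X : Multi n N) (i : Fin N) : ip (X.ω i) ∈ X.U i := by
  refine ⟨fun a ha => by simp [ip, X.ωblock i a ha], ?_⟩
  intro P _ c hc a
  have h1 := congrArg Complex.im (congrFun hc a)
  simp only [app, Pi.smul_apply, smul_eq_mul, Complex.im_sum] at h1
  simp only [ip]
  rw [Complex.im_ofReal_mul] at h1
  rw [← h1]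
  refine Finset.sum_congr rfl fun j _ => ?_
  have : ((P a j : ℚ) : ℂ) = (((P a j : ℚ) : ℝ) : ℂ) := by push_cast; rfl
  rw [this, Complex.im_ofReal_mul]

/-- the rotation of the plane of the two-form -/
def rotM (X : Multi n N) (i : Fin N) : End ℝ (Fin n → ℝ) :=
  (bilR X.B (rp (X.ω i)) (rp (X.ω i)))⁻¹ • wedge (bilR X.B) (rp (X.ω i)) (ip (X.ω i))

theorem rotM_skew (X : Multi n N) (i : Fin N) : Skew (bilR X.B) (rotM X i) := by
  intro u v
  simp only [rotM, LinearMap.smul_apply, wedge_apply, map_smul, map_sub, LinearMap.sub_apply,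
    smul_eq_mul]
  rw [bilR_symm X.B X.symm u (ip (X.ω i)), bilR_symm X.B X.symm u (rp (X.ω i))]
  ring

theorem rotM_zero (X : Multi n N) (i : Fin N) (v : Fin n → ℝ)
    (hv : ∀ u ∈ X.U i, bilR X.B u v = 0) : rotM X i v = 0 := by
  simp only [rotM, LinearMap.smul_apply, wedge_apply]
  rw [hv _ (rp_memM X i), hv _ (ip_memM X i)]
  simp

/-- the complexification of the rotation -/
def rotMC (X : Multi n N) (i : Fin N) : (Fin n → ℂ) →ₗ[ℂ] (Fin n → ℂ) :=
  ((bilR X.B (rp (X.ω i)) (rp (X.ω i)) : ℝ) : ℂ)⁻¹ •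
    ((bilL X.B (cv (rp (X.ω i)))).smulRight (cv (ip (X.ω i))) -
      (bilL X.B (cv (ip (X.ω i)))).smulRight (cv (rp (X.ω i))))

theorem rotMC_apply (X : Multi n N) (i : Fin N) (v : Fin n → ℂ) : rotMC X i v =
    ((bilR X.B (rp (X.ω i)) (rp (X.ω i)) : ℝ) : ℂ)⁻¹ •
      (bil X.B (cv (rp (X.ω i))) v • cv (ip (X.ω i)) -
        bil X.B (cv (ip (X.ω i))) v • cv (rp (X.ω i))) := by
  simp [rotMC, bilL]

theorem rotMC_cv (X : Multi n N) (i : Fin N) (v : Fin n → ℝ) :
    rotMC X i (cv v) = cv (rotM X i v) := by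
  rw [rotMC_apply, bil_cv, bil_cv]
  funext a
  simp [rotM, wedge_apply, cv]

theorem kills_cxM (y : End ℝ (Fin n → ℝ)) (yC : (Fin n → ℂ) →ₗ[ℂ] (Fin n → ℂ))
    (hy : ∀ v, yC (cv v) = cv (y v)) {k : ℕ} (t : (Fin k → Fin n) → ℚ)
    (hk : Kills y (formR t)) (v : Fin k → Fin n → ℂ) :
    ∑ j, ev t (Function.update v j (yC (v j))) = 0 := by
  have key : (∑ j, (evM t).compLinearMap
      (Function.update (fun _ => LinearMap.id) j yC)) = 0 := by
    refine Basis.ext_multilinear (fun _ => Pi.basisFun ℂ (Fin n)) fun I => ?_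
    simp only [_root_.sum_apply, MultilinearMap.compLinearMap_apply,
      _root_.zero_apply]
    have h1 := hk (fun j => Pi.single (I j) (1 : ℝ))
    have h2 : ((∑ j, formR t (Function.update (fun j => Pi.single (I j) (1 : ℝ)) j
        (y (Pi.single (I j) (1 : ℝ)))) : ℝ) : ℂ) = 0 := by
      rw [h1]; simp
    rw [← h2]
    push_cast
    refine Finset.sum_congr rfl fun j _ => ?_
    rw [← ev_cv, evM_apply]
    congr 1
    funext i
    have hb : ∀ a : Fin n, (Pi.basisFun ℂ (Fin n)) a = cv (Pi.single a (1 : ℝ)) := by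
      intro a
      rw [Pi.basisFun_apply]
      funext b
      simp only [cv, Pi.single_apply]
      split_ifs <;> simp
    by_cases hij : i = j
    · subst hij
      simp only [Function.update_self]
      rw [hb, hy]
    · simp only [Function.update_of_ne hij]
      rw [hb]
      rfl
  have h3 := congrArg (fun T => T v) key
  simp only [_root_.sum_apply, MultilinearMap.compLinearMap_apply,
      _root_.zero_apply] at h3
  rw [← h3]
  refine Finset.sum_congr rfl fun j _ => ?_
  rw [evM_apply]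
  congr 1
  funext i
  by_cases hij : i = j
  · subst hij
    simp only [Function.update_self]
  · simp only [Function.update_of_ne hij]
    rfl

theorem bil_block (X : Multi n N) {i j : Fin N} (hij : i ≠ j) (u v : Fin n → ℂ)
    (hu : ∀ a, X.c a ≠ i → u a = 0) (hv : ∀ a, X.c a ≠ j → v a = 0) : bil X.B u v = 0 := by
  unfold bil
  refine Finset.sum_eq_zero fun a _ => Finset.sum_eq_zero fun b _ => ?_
  by_cases ha : X.c a = i
  · by_cases hb : X.c b = j
    · have h1 : X.B a b = 0 := X.Bblock a b (by rw [ha, hb]; exact hij)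
      rw [h1]
      simp
    · rw [hv b hb, mul_zero]
  · rw [hu a ha]
    simp

theorem rotMC_same (X : Multi n N) (i : Fin N) :
    rotMC X i (X.ω i) = (-Complex.I) • X.ω i ∧
    rotMC X i (cj (X.ω i)) = Complex.I • cj (X.ω i) := by
  obtain ⟨h1, h2, h3⟩ := planeM X i
  have hs := bilR_symm X.B X.symm (ip (X.ω i)) (rp (X.ω i))
  have hc : ((bilR X.B (rp (X.ω i)) (rp (X.ω i)) : ℝ) : ℂ) ≠ 0 := by
    exact_mod_cast h3.ne'
  constructor
  · rw [rotMC_apply]
    have e1 : bil X.B (cv (rp (X.ω i))) (X.ω i) =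
        ((bilR X.B (rp (X.ω i)) (rp (X.ω i)) : ℝ) : ℂ) := by
      conv_lhs => rw [eq_rp_ip (X.ω i)]
      rw [show rp (cv (rp (X.ω i)) + Complex.I • cv (ip (X.ω i))) = rp (X.ω i) by
        rw [← eq_rp_ip], bil_add_right, bil_smul_right, bil_cv, bil_cv, h2]
      simp
    have e2 : bil X.B (cv (ip (X.ω i))) (X.ω i) =
        Complex.I * ((bilR X.B (rp (X.ω i)) (rp (X.ω i)) : ℝ) : ℂ) := by
      conv_lhs => rw [eq_rp_ip (X.ω i)]
      rw [show ip (cv (rp (X.ω i)) + Complex.I • cv (ip (X.ω i))) = ip (X.ω i) by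
        rw [← eq_rp_ip], bil_add_right, bil_smul_right, bil_cv, bil_cv, hs, h2, h1]
      simp
    rw [e1, e2]
    conv_rhs => rw [eq_rp_ip (X.ω i)]
    funext a
    simp only [Pi.smul_apply, Pi.sub_apply, Pi.add_apply, smul_eq_mul]
    field_simp
    have hI := Complex.I_sq
    linear_combination (cv (ip (X.ω i)) a) * hI
  · rw [rotMC_apply]
    have e1 : bil X.B (cv (rp (X.ω i))) (cj (X.ω i)) =
        ((bilR X.B (rp (X.ω i)) (rp (X.ω i)) : ℝ) : ℂ) := by
      rw [cj_eq_rp_ip, bil_add_right, bil_smul_right, bil_cv, bil_cv, h2]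
      simp
    have e2 : bil X.B (cv (ip (X.ω i))) (cj (X.ω i)) =
        -Complex.I * ((bilR X.B (rp (X.ω i)) (rp (X.ω i)) : ℝ) : ℂ) := by
      rw [cj_eq_rp_ip, bil_add_right, bil_smul_right, bil_cv, bil_cv, hs, h2, h1]
      simp
    rw [e1, e2, cj_eq_rp_ip]
    funext a
    simp only [Pi.smul_apply, Pi.sub_apply, Pi.add_apply, smul_eq_mul]
    field_simp
    have hI := Complex.I_sq
    linear_combination (cv (ip (X.ω i)) a) * hI

theorem rotMC_diff (X : Multi n N) {i j : Fin N} (hij : i ≠ j) (v : Fin n → ℂ)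
    (hv : ∀ a, X.c a ≠ j → v a = 0) : rotMC X i v = 0 := by
  rw [rotMC_apply, bil_block X hij _ v (fun a ha => by simp [cv, rp, X.ωblock i a ha]) hv,
    bil_block X hij _ v (fun a ha => by simp [cv, ip, X.ωblock i a ha]) hv]
  simp

theorem rotMC_perp (X : Multi n N) (i : Fin N) (v : Fin n → ℂ) (hv : bil X.B v (X.ω i) = 0)
    (hv' : bil X.B v (cj (X.ω i)) = 0) : rotMC X i v = 0 := by
  have e0 : bil X.B v (cv (rp (X.ω i))) + Complex.I * bil X.B v (cv (ip (X.ω i))) = 0 := by
    rw [← bil_smul_right, ← bil_add_right, ← eq_rp_ip, hv]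
  have e0' : bil X.B v (cv (rp (X.ω i))) + (-Complex.I) * bil X.B v (cv (ip (X.ω i))) = 0 := by
    rw [← bil_smul_right, ← bil_add_right, ← cj_eq_rp_ip, hv']
  have e1 : bil X.B (cv (rp (X.ω i))) v = 0 := by
    rw [bil_symm X.B X.symm]
    linear_combination (e0 + e0') / 2
  have e2 : bil X.B (cv (ip (X.ω i))) v = 0 := by
    rw [bil_symm X.B X.symm]
    have hI := Complex.I_sq
    linear_combination (-Complex.I / 2) * (e0 - e0') + bil X.B v (cv (ip (X.ω i))) * hI
  rw [rotMC_apply, e1, e2]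
  simp

theorem rotMC_type (X : Multi n N) (v : Fin n → ℂ) (p : ℤ) (h : X.HType v p) :
    (∑ i, rotMC X i) v = (-(Complex.I * (p : ℂ))) • v := by
  rw [LinearMap.sum_apply]
  rcases h with ⟨hp, j, hv⟩ | ⟨hp, j, hv⟩ | ⟨hp, hv⟩
  · subst hp
    subst hv
    rw [Finset.sum_eq_single j, (rotMC_same X j).1]
    · simp
    · intro i _ hij
      exact rotMC_diff X hij _ (X.ωblock j)
    · intro h
      exact absurd (Finset.mem_univ j) h
  · subst hp
    subst hv
    rw [Finset.sum_eq_single j, (rotMC_same X j).2]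
    · simp
    · intro i _ hij
      exact rotMC_diff X hij _ (fun a ha => by simp [cj, X.ωblock j a ha])
    · intro h
      exact absurd (Finset.mem_univ j) h
  · subst hp
    rw [Finset.sum_eq_zero fun i _ => rotMC_perp X i v (hv i).1 (hv i).2]
    simp

/-- (HODGE2) -/
theorem hodge2 : S_hodge2 := by
  intro n N X hyp k t ht v p hv hp
  have hmem : (∑ i, rotM X i) ∈ X.hT :=
    Submodule.sum_mem _ fun i _ => hyp i (rotM X i) (rotM_skew X i) (rotM_zero X i)
  have hk : Kills (∑ i, rotM X i) (formR t) := hmem k t ht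
  have hy : ∀ w, (∑ i, rotMC X i) (cv w) = cv ((∑ i, rotM X i) w) := by
    intro w
    rw [LinearMap.sum_apply, LinearMap.sum_apply]
    funext a
    rw [Finset.sum_apply]
    simp only [rotMC_cv, cv, Finset.sum_apply]
    push_cast
    rfl
  have h1 := kills_cxM _ _ hy t hk v
  have h2 : ∀ j, ev t (Function.update v j ((∑ i, rotMC X i) (v j))) =
      (-(Complex.I * (p j : ℂ))) * ev t v := by
    intro j
    rw [rotMC_type X (v j) (p j) (hv j), ← evM_apply, MultilinearMap.map_update_smul,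
      Function.update_eq_self, evM_apply]
    rfl
  rw [Finset.sum_congr rfl fun j _ => h2 j, ← Finset.sum_mul] at h1
  rcases mul_eq_zero.mp h1 with h3 | h3
  · exfalso
    apply hp
    rw [Finset.sum_neg_distrib, ← Finset.mul_sum, neg_eq_zero] at h3
    rcases mul_eq_zero.mp h3 with h4 | h4
    · exact absurd h4 Complex.I_ne_zero
    · exact_mod_cast h4
  · exact h3

end

end Pool.Agent.W976.K3
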